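import Pool.Agent.Helper53.Pq.Goals

/-!
# Packet Pq-A1 (helper53): the Gaussian type bound of `φ` on `[0, π/2]`
-/

namespace Pool.Agent.Helper69.Pq

open Pool.Agent.Helper53.Pq

theorem sin_mul_le {x y : ℝ} (hx : 0 < x) (hxy : x ≤ y) (hy : y ≤ Real.pi) :
    x * Real.sin y ≤ y * Real.sin x := by
  have hy0 : 0 < y := hx.trans_le hxy
  have hab : 0 ≤ 1 - x / y := by rw [sub_nonneg, div_le_one hy0]; exact hxy
  have hb : 0 ≤ x / y := by positivity
  have h := strictConcaveOn_sin_Icc.concaveOn.2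
    (show (0 : ℝ) ∈ Set.Icc 0 Real.pi from ⟨le_refl _, Real.pi_pos.le⟩)
    (show y ∈ Set.Icc 0 Real.pi from ⟨hy0.le, hy⟩) hab hb (by ring)
  simp only [smul_eq_mul, mul_zero, zero_add, Real.sin_zero] at h
  have e : x / y * y = x := by field_simp
  rw [e] at h
  have h2 : x / y * Real.sin y * y ≤ Real.sin x * y := mul_le_mul_of_nonneg_right h hy0.le
  have e2 : x / y * Real.sin y * y = x * Real.sin y := by field_simp
  rw [e2] at h2
  linarith

theorem vv_lo {θ : ℝ} (h1 : 1 / 6 ≤ θ) (h2 : θ ≤ 1 / 4) : 0.047 ≤ vv θ := by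
  have hp := Real.pi_gt_d4
  have hp2 := Real.pi_lt_d4
  have hpos : 0 < Real.sin (Real.pi * θ) := by
    apply Real.sin_pos_of_pos_of_lt_pi
    · positivity
    · nlinarith
  have h3 := sin_mul_le (x := Real.pi / 6) (y := Real.pi * θ) (by positivity) (by nlinarith)
    (by nlinarith)
  rw [Real.sin_pi_div_six] at h3
  unfold vv
  rw [le_sub_iff_add_le, le_div_iff₀ hpos]
  have h4 : Real.sin (Real.pi * θ) ≤ 3 * θ := by
    have : Real.pi * Real.sin (Real.pi * θ) ≤ Real.pi * (3 * θ) := by nlinarith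
    exact le_of_mul_le_mul_left this Real.pi_pos
  nlinarith

theorem vv_hi {θ : ℝ} (h1 : 1 / 6 ≤ θ) (h2 : θ ≤ 1 / 4) : vv θ ≤ 0.111 := by
  have hp := Real.pi_gt_d4
  have hp2 := Real.pi_lt_d4
  have hpos : 0 < Real.sin (Real.pi * θ) := by
    apply Real.sin_pos_of_pos_of_lt_pi
    · positivity
    · nlinarith
  have h3 := sin_mul_le (x := Real.pi * θ) (y := Real.pi / 4) (by positivity) (by nlinarith)
    (by nlinarith)
  rw [Real.sin_pi_div_four] at h3
  unfold vv
  rw [sub_le_iff_le_add, div_le_iff₀ hpos]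
  have hs : (1.4142 : ℝ) ≤ √2 := by
    apply Real.le_sqrt_of_sq_le
    norm_num
  have h4 : 2 * √2 * θ ≤ Real.sin (Real.pi * θ) := by
    have h5 : Real.pi * θ * (√2 / 2) ≤ Real.pi / 4 * Real.sin (Real.pi * θ) := h3
    have h6 : Real.pi * (2 * √2 * θ) ≤ Real.pi * Real.sin (Real.pi * θ) := by nlinarith
    exact le_of_mul_le_mul_left h6 Real.pi_pos
  nlinarith

/-- The real inequality. -/
theorem quad_le_exp {k c : ℝ} (hk0 : 0 ≤ k) (hk : k ≤ 1.38) (hc : 0.269 ≤ c) (hc2 : c ≤ 0.303)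
    (hkc : k / 3 + 2 * c - 1 ≤ 0) {a : ℝ} (ha : 0 ≤ a) (ha2 : a ≤ 1.38) :
    1 - a + k * a ^ 2 / 6 ≤ Real.exp (-a - c * a ^ 2) := by
  have hanti : AntitoneOn (fun x : ℝ => (1 - x + k * x ^ 2 / 6) * Real.exp (x + c * x ^ 2))
      (Set.Icc 0 1.38) := by
    apply antitoneOn_of_deriv_nonpos (convex_Icc _ _)
    · fun_prop
    · fun_prop
    · intro x hx
      rw [interior_Icc] at hx
      obtain ⟨hx0, hx1⟩ := hx
      have hd1 : HasDerivAt (fun x : ℝ => 1 - x + k * x ^ 2 / 6) (-1 + k * x / 3) x := by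
        have h1 : HasDerivAt (fun x : ℝ => 1 - x + k * x ^ 2 / 6)
            (0 - 1 + k * (((2 : ℕ) : ℝ) * x ^ (2 - 1)) / 6) x :=
          (((hasDerivAt_const x (1 : ℝ)).sub (hasDerivAt_id x)).add
            (((hasDerivAt_pow 2 x).const_mul k).div_const 6))
        convert h1 using 1
        push_cast
        ring
      have hd2 : HasDerivAt (fun x : ℝ => Real.exp (x + c * x ^ 2))
          (Real.exp (x + c * x ^ 2) * (1 + 2 * c * x)) x := by
        have h1 : HasDerivAt (fun x : ℝ => x + c * x ^ 2)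
            (1 + c * (((2 : ℕ) : ℝ) * x ^ (2 - 1))) x :=
          (hasDerivAt_id x).add ((hasDerivAt_pow 2 x).const_mul c)
        have h2 := h1.exp
        convert h2 using 1
        push_cast
        ring
      have hd := hd1.mul hd2
      have e : deriv (fun x : ℝ => (1 - x + k * x ^ 2 / 6) * Real.exp (x + c * x ^ 2)) x =
          (-1 + k * x / 3) * Real.exp (x + c * x ^ 2) +
            (1 - x + k * x ^ 2 / 6) * (Real.exp (x + c * x ^ 2) * (1 + 2 * c * x)) := hd.deriv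
      rw [e]
      have e2 : (-1 + k * x / 3) * Real.exp (x + c * x ^ 2) +
            (1 - x + k * x ^ 2 / 6) * (Real.exp (x + c * x ^ 2) * (1 + 2 * c * x)) =
          Real.exp (x + c * x ^ 2) * (x * ((k / 3 + 2 * c - 1) +
            x * (k / 6 - 2 * c + k * c / 3 * x))) := by ring
      rw [e2]
      have h3 : k / 6 - 2 * c + k * c / 3 * x ≤ 0 := by
        have h4 : k * c ≤ 1.38 * 0.303 := mul_le_mul hk hc2 (by linarith) (by norm_num)
        have h5 : k * c * x ≤ 1.38 * 0.303 * 1.38 :=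
          mul_le_mul h4 hx1.le hx0.le (by norm_num)
        linarith
      have h6 : (k / 3 + 2 * c - 1) + x * (k / 6 - 2 * c + k * c / 3 * x) ≤ 0 := by
        nlinarith
      have h7 : x * ((k / 3 + 2 * c - 1) + x * (k / 6 - 2 * c + k * c / 3 * x)) ≤ 0 :=
        mul_nonpos_of_nonneg_of_nonpos hx0.le h6
      exact mul_nonpos_of_nonneg_of_nonpos (Real.exp_pos _).le h7
  have h1 := hanti (show (0 : ℝ) ∈ Set.Icc (0 : ℝ) 1.38 from ⟨le_refl _, by norm_num⟩)
    (show a ∈ Set.Icc (0 : ℝ) 1.38 from ⟨ha, ha2⟩) ha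
  have h2 : (1 - a + k * a ^ 2 / 6) * Real.exp (a + c * a ^ 2) ≤ 1 := by
    simpa using h1
  have h3 : Real.exp (-a - c * a ^ 2) * Real.exp (a + c * a ^ 2) = 1 := by
    rw [← Real.exp_add]
    have : -a - c * a ^ 2 + (a + c * a ^ 2) = 0 := by ring
    rw [this, Real.exp_zero]
  have h4 : (1 - a + k * a ^ 2 / 6) * Real.exp (a + c * a ^ 2) ≤
      Real.exp (-a - c * a ^ 2) * Real.exp (a + c * a ^ 2) := by rw [h3]; exact h2
  exact le_of_mul_le_mul_right h4 (Real.exp_pos _)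

theorem gA1 : GA1 := by
  intro θ φ hφ t ht ht2
  have hv1 := vv_lo hφ.lo hφ.hi
  have hv2 := vv_hi hφ.lo hφ.hi
  have hq := hφ.quart t
  obtain ⟨A, B, hAB, hA1, -, -, -, hB⟩ := hφ.ab t ht
  have hp := Real.pi_gt_d4
  have hp2 := Real.pi_lt_d4
  have ht3 : t ≤ 1.5708 := by linarith
  have hcos : 0 ≤ Real.cos t := Real.cos_nonneg_of_neg_pi_div_two_le_of_le (by linarith) ht2
  have hsin : 0 ≤ Real.sin t := Real.sin_nonneg_of_nonneg_of_le_pi ht (by linarith)
  have hsin1 : Real.sin t ≤ 1 := Real.sin_le_one t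
  unfold cA
  have hzz : zz θ = 2.6 * vv θ ^ 2 + 0.0035 := rfl
  rw [hzz] at hq hB
  generalize vv θ = v at *
  have ht4 : t ^ 2 ≤ 2.4675 := by nlinarith
  have ht5 : 0 ≤ t ^ 2 := by positivity
  have ha0 : 0 ≤ (1 + v) * t ^ 2 / 2 := by positivity
  have ha1 : (1 + v) * t ^ 2 / 2 ≤ 1.38 := by nlinarith
  have hs : 0 < (1 + v) ^ 2 := by positivity
  rw [abs_le]
  constructor
  · -- the lower bound
    have h1 : -φ t ≤ 0.01 := by
      have hA0 : 0 ≤ A := by nlinarith
      have h2 : 0 ≤ Real.cos t * A := mul_nonneg hcos hA0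
      have h3 : t ^ 3 ≤ 3.9 := by
        calc t ^ 3 = t ^ 2 * t := by ring
          _ ≤ 2.4675 * 1.5708 := mul_le_mul ht4 ht3 ht (by norm_num)
          _ ≤ 3.9 := by norm_num
      have h4 : t ^ 4 ≤ 6.1 := by
        calc t ^ 4 = t ^ 2 * t ^ 2 := by ring
          _ ≤ 2.4675 * 2.4675 := mul_le_mul ht4 ht4 ht5 (by norm_num)
          _ ≤ 6.1 := by norm_num
      have h5 : 2.6 * v ^ 2 + 0.0035 ≤ 0.0356 := by nlinarith
      have h6 : (2.6 * v ^ 2 + 0.0035) * t ^ 4 ≤ 0.0356 * 6.1 :=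
        mul_le_mul h5 h4 (by positivity) (by norm_num)
      have h7 : B ≤ 0.01 := by linarith
      have h8 : Real.sin t * B ≤ 0.01 := by
        rcases le_total 0 B with hB0 | hB0
        · nlinarith
        · have := mul_nonpos_of_nonneg_of_nonpos hsin hB0
          linarith
      rw [hAB]
      linarith
    have h9 : (0.01 : ℝ) ≤ Real.exp (-((1 + v) * t ^ 2 / 2) -
        (0.3276 - 0.525 * v) * ((1 + v) * t ^ 2 / 2) ^ 2) := by
      have h10 : (-2 : ℝ) ≤ -((1 + v) * t ^ 2 / 2) -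
          (0.3276 - 0.525 * v) * ((1 + v) * t ^ 2 / 2) ^ 2 := by
        have h11 : ((1 + v) * t ^ 2 / 2) ^ 2 ≤ 1.9045 := by nlinarith
        have h12 : (0.3276 - 0.525 * v) * ((1 + v) * t ^ 2 / 2) ^ 2 ≤ 0.31 * 1.9045 :=
          mul_le_mul (by linarith) h11 (by positivity) (by norm_num)
        linarith
      refine le_trans ?_ (Real.exp_le_exp.2 h10)
      have h13 := Real.exp_one_lt_d9
      have h14 : Real.exp (-2) = (Real.exp 1 * Real.exp 1)⁻¹ := by
        rw [← Real.exp_add, ← Real.exp_neg]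
        norm_num
      rw [h14, le_inv_comm₀ (by norm_num) (by positivity)]
      have h15 : 0 < Real.exp 1 := Real.exp_pos 1
      nlinarith
    linarith
  · have hk0 : 0 ≤ (1 + 6 * v + (2.6 * v ^ 2 + 0.0035)) / (1 + v) ^ 2 := by positivity
    have hk : (1 + 6 * v + (2.6 * v ^ 2 + 0.0035)) / (1 + v) ^ 2 ≤ 1.38 := by
      rw [div_le_iff₀ hs]
      nlinarith
    have hkc : (1 + 6 * v + (2.6 * v ^ 2 + 0.0035)) / (1 + v) ^ 2 / 3 +
        2 * (0.3276 - 0.525 * v) - 1 ≤ 0 := by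
      have h1 : (1 + 6 * v + (2.6 * v ^ 2 + 0.0035)) / (1 + v) ^ 2 ≤
          3 * (1 - 2 * (0.3276 - 0.525 * v)) := by
        rw [div_le_iff₀ hs]
        have h2 : 0 ≤ 0.0309 - 0.7812 * v + 4.7344 * v ^ 2 + 3.15 * v ^ 3 := by
          nlinarith [mul_nonneg (by linarith : (0 : ℝ) ≤ v + 0.1532) (sq_nonneg (v - 0.0766)),
            sq_nonneg (v - 0.0766)]
        nlinarith
      linarith
    have h1 := quad_le_exp hk0 hk (c := 0.3276 - 0.525 * v) (by linarith) (by linarith) hkc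
      ha0 ha1
    refine le_trans (hq.trans (le_of_eq ?_)) h1
    field_simp
    ring

end Pool.Agent.Helper69.Pq
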